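import Pool.Agent.H506.D5.All5
import Pool.Agent.H506.D5.Fin6
import Pool.Agent.H506.D5.J0
import Pool.Agent.H506.D5.J1

/-!
# The average of the 5-torsion of the class groups of imaginary quadratic function fields in characteristic 5

Let `F` be a finite field of characteristic `5` with `q` elements (`q = 5, 25, 125, …`).
The imaginary quadratic extensions of `F(t)` are the fields `F(t)(√f)`, `f` squarefree, of degree `n`
and leading coefficient `c`, where `n` is odd (the infinite place ramifies) or `c` is not a square (for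
even `n` the infinite place is inert).  The integral closure of `F[t]` is `F[t] + F[t] √f`.  Here
`p = 5` is the characteristic; this case is excluded in the theorems of Ellenberg-Venkatesh-Westerland
and of Landesman-Levy.

The theorem: when `f` runs over the `q^n - q^{n-1}` squarefree polynomials of degree `n` and leading
coefficient `c`, the average of `#Cl(f)[5]` is `2 + O(q^{-1/2})`, with an absolute constant, uniformly
in `n ≥ 241` (the upper bound for `n ≥ 81`) and `c`.  The conjecture of Cohen and Lenstra gives `2`.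
So the proportion of the `f` with class number prime to `5` is at least `3/4 - O(q^{-1/2})`; the
conjecture gives `0.7603…`.

## The proof

1. `F[t] + F[t] √f` has the derivation `δ` with `δ t = √f`, `δ √f = f' / 2`, and `δ⁵ = - (f²)'''' δ`.
   Logarithmic derivatives identify the classes of order dividing `5` with the polynomials `v` of
   degree `< g` such that `(f² v)'''' = - v⁵` (`n = 2 g + 1` or `n = 2 g + 2`).
2. For fixed `v` these are `g` quadratic equations for the `n` coefficients of `f`; by Weyl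
   differencing the number of solutions is `q^(n-g)` up to a sum over the linear forms `l` of the
   square roots of the sizes of the radicals of the quadratic forms `f ↦ ∑_j l_j (v f²)_{5 j + 4}`
   (Hankel forms), where moreover the linear part of the form must vanish on the radical.
3. The pairs `(l, v)` with a nontrivial radical are counted: the annihilator of `l` has two coprime
   generators `B₁, B₂`, and in characteristic `5` the relation `v z = b₁⁵ α + b₂⁵ β` is additive in
   `(b₁, b₂)`, so that for fixed `v, α, β` the solutions are controlled by the determinants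
   `b₁ y - b₂ x`, which are divisible by (the squarefree part of) `v`.
4. The polynomials `f` which are not squarefree: if `f = a² h` the number of the solutions `v` is at
   most `5^(deg a)` times the number for `h`.
-/

set_option autoImplicit false

open Polynomial

noncomputable section

namespace Pool.Agent.Results.MP_16912e_nt.FiveTorsionAverageTwo

/-- The ring `F[t] + F[t] √f`: elements `a + b s` with `a, b ∈ F[t]` and `s² = f`. -/
abbrev Ord {F : Type} [Field F] (f : F[X]) : Type := QuadraticAlgebra F[X] f 0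

/-- The squarefree polynomials of degree `n` with the leading coefficient `c` over `F`. -/
def family {F : Type} [Field F] (c : F) (n : ℕ) : Set F[X] :=
  {f | Squarefree f ∧ f.leadingCoeff = c ∧ f.natDegree = n}

/-- The fields `F(t)(√f)`, `f ∈ family c n`, are imaginary: the infinite place ramifies (`n` odd), or
it is inert (`n` even, `c` not a square). -/
def Imaginary {F : Type} [Field F] (c : F) (n : ℕ) : Prop :=
  c ≠ 0 ∧ (Odd n ∨ ¬ IsSquare c)

open scoped Classical in
/-- The class number of `Ord f` (`0` if `Ord f` is not a domain). -/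
def classNumber {F : Type} [Field F] (f : F[X]) : ℕ :=
  if _h : IsDomain (Ord f) then Nat.card (ClassGroup (Ord f)) else 0

open scoped Classical in
/-- The number of the ideal classes `c` of `Ord f` with `c ^ 5 = 1` (`0` if `Ord f` is not a domain). -/
def fiveTorsion {F : Type} [Field F] (f : F[X]) : ℕ :=
  if _h : IsDomain (Ord f) then Nat.card {c : ClassGroup (Ord f) // c ^ 5 = 1} else 0

theorem ne_zero {F : Type} [Field F] {c : F} {n : ℕ} (h : Imaginary c n) : c ≠ 0 := h.1

theorem cases {F : Type} [Field F] {c : F} {n : ℕ} (h : Imaginary c n) :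
    (∃ g, n = 2 * g + 1) ∨ (¬ IsSquare c ∧ ∃ g, n = g + g) := by
  rcases Nat.even_or_odd n with he | ho
  · right
    refine ⟨?_, he⟩
    rcases h.2 with ho | hc
    · exact absurd he (Nat.not_even_iff_odd.2 ho)
    · exact hc
  · exact Or.inl ho

open scoped Classical in
/-- The family is the set of the `c m`, `m` monic squarefree. -/
theorem family_eq (F : Type) [Field F] [Fintype F] [CharP F 5] (c : F) (hc : c ≠ 0) (n : ℕ) :
    family c n = (((D5.SQF F n).image (fun m => C c * m) : Finset F[X]) : Set F[X]) := by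
  have hB0 := D5.p_B0 F
  ext f
  simp only [family, Finset.coe_image, Set.mem_image, Finset.mem_coe, D5.SQF, Finset.mem_filter, hB0.2.1]
  constructor
  · rintro ⟨h1, h2, h3⟩
    have hf : C c * (C c⁻¹ * f) = f := by
      rw [← mul_assoc, ← C_mul, mul_inv_cancel₀ hc, C_1, one_mul]
    refine ⟨C c⁻¹ * f, ⟨⟨?_, ?_⟩, ?_⟩, hf⟩
    · show (C c⁻¹ * f).leadingCoeff = 1
      rw [leadingCoeff_mul, leadingCoeff_C, h2, inv_mul_cancel₀ hc]
    · rw [natDegree_C_mul (inv_ne_zero hc), h3]
    · exact (D5.XFin5.squarefree_C_mul (inv_ne_zero hc) f).2 h1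
  · rintro ⟨m, ⟨⟨h1, h2⟩, h3⟩, rfl⟩
    refine ⟨(D5.XFin5.squarefree_C_mul hc m).2 h3, ?_, ?_⟩
    · rw [leadingCoeff_mul, leadingCoeff_C, h1.leadingCoeff, mul_one]
    · rw [natDegree_C_mul hc, h2]

theorem inj {F : Type} [Field F] {c : F} (hc : c ≠ 0) : Function.Injective (fun m : F[X] => C c * m) := by
  intro a b h
  exact mul_left_cancel₀ (fun h0 => hc (C_eq_zero.1 h0)) h

/-- The algebraic part. -/
theorem facts (F : Type) [Field F] [Fintype F] [CharP F 5] (f : F[X]) (hs : Squarefree f)
    (hd : 1 ≤ f.natDegree) : IsDedekindDomain (Ord f) ∧ 0 < classNumber f ∧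
      (1 < fiveTorsion f ↔ 5 ∣ classNumber f) ∧ ∃ r : ℕ, fiveTorsion f = 5 ^ r := by
  have hded : IsDedekindDomain (Ord f) := P5.p_A3 F f hs hd
  have hdom : IsDomain (Ord f) := hded.toIsDomain
  have hfin : Finite (ClassGroup (Ord f)) := D5.XC2.fin f hded
  have e1 : classNumber f = Nat.card (ClassGroup (Ord f)) := by
    unfold classNumber
    rw [dif_pos hdom]
  have e2 : fiveTorsion f = Nat.card {c : ClassGroup (Ord f) // c ^ 5 = 1} := by
    unfold fiveTorsion
    rw [dif_pos hdom]
  rw [e1, e2]
  obtain ⟨h1, h2⟩ := D5.XC2.grp (ClassGroup (Ord f))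
  exact ⟨hded, Nat.card_pos, h1, h2⟩

open scoped Classical in
/-- The upper bound for the average gives an upper bound for the number of the `f` with `5 ∣ h`. -/
theorem markov {F : Type} [Field F] (B : Finset F[X]) (K : ℝ)
    (hB : ∀ f ∈ B, (1 < fiveTorsion f ↔ 5 ∣ classNumber f) ∧ ∃ r : ℕ, fiveTorsion f = 5 ^ r)
    (h1 : ∑ f ∈ B, (fiveTorsion f : ℝ) ≤ (2 + K) * (B.card : ℝ)) :
    4 * ((B.filter (fun f => 5 ∣ classNumber f)).card : ℝ) ≤ (1 + K) * (B.card : ℝ) := by
  have h2 : ∀ f ∈ B, (1 : ℝ) + (if 5 ∣ classNumber f then 4 else 0) ≤ (fiveTorsion f : ℝ) := by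
    intro f hf
    obtain ⟨h3, r, hr⟩ := hB f hf
    split_ifs with h5
    · have h6 : 1 < fiveTorsion f := h3.2 h5
      have h7 : 5 ≤ fiveTorsion f := by
        rw [hr] at h6 ⊢
        rcases Nat.eq_zero_or_pos r with h0 | h0
        · rw [h0] at h6
          omega
        · calc 5 = 5 ^ 1 := (pow_one 5).symm
            _ ≤ 5 ^ r := Nat.pow_le_pow_right (by norm_num) h0
      have h8 : (5 : ℝ) ≤ (fiveTorsion f : ℝ) := by exact_mod_cast h7
      linarith
    · have h7 : 1 ≤ fiveTorsion f := by
        rw [hr]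
        exact Nat.one_le_pow _ _ (by norm_num)
      have h8 : (1 : ℝ) ≤ (fiveTorsion f : ℝ) := by exact_mod_cast h7
      linarith
  have h3 := Finset.sum_le_sum h2
  rw [Finset.sum_add_distrib, Finset.sum_const, nsmul_eq_mul, mul_one, ← Finset.sum_filter,
    Finset.sum_const, nsmul_eq_mul] at h3
  have h4 : (2 + K) * (B.card : ℝ) = (B.card : ℝ) + (1 + K) * (B.card : ℝ) := by ring
  rw [h4] at h1
  linarith

theorem result (F : Type) [Field F] [Fintype F] [CharP F 5] :
    -- the rings are Dedekind domains with finite class groups, `#Cl[5]` is a power of `5`, and it is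
    -- not `1` iff `5` divides the class number
    (∀ (c : F) (n : ℕ), Imaginary c n → 1 ≤ n → ∀ f ∈ family c n, IsDedekindDomain (Ord f) ∧
      0 < classNumber f ∧ (1 < fiveTorsion f ↔ 5 ∣ classNumber f) ∧ ∃ r : ℕ, fiveTorsion f = 5 ^ r) ∧
    -- the size of the family
    (∀ (c : F) (n : ℕ), Imaginary c n → 2 ≤ n → ((family c n).ncard : ℝ) =
      (Fintype.card F : ℝ) ^ n - (Fintype.card F : ℝ) ^ (n - 1)) ∧
    -- the average of `#Cl[5]` is `2 + O(q ^ (-1/2))`, uniformly in `n` and `c`: upper bound
    (∀ (c : F) (n : ℕ), Imaginary c n → 81 ≤ n → ∑ᶠ f ∈ family c n, (fiveTorsion f : ℝ) ≤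
      (2 + 300000 / Real.sqrt (Fintype.card F : ℝ)) * ((family c n).ncard : ℝ)) ∧
    -- lower bound
    (∀ (c : F) (n : ℕ), Imaginary c n → 241 ≤ n →
      (2 - 300000 / Real.sqrt (Fintype.card F : ℝ)) * ((family c n).ncard : ℝ) ≤
        ∑ᶠ f ∈ family c n, (fiveTorsion f : ℝ)) ∧
    -- the proportion of class numbers divisible by `5` is at most `1/4 + O(q ^ (-1/2))`
    (∀ (c : F) (n : ℕ), Imaginary c n → 81 ≤ n → 4 * ({f ∈ family c n | 5 ∣ classNumber f}.ncard : ℝ) ≤
      (1 + 300000 / Real.sqrt (Fintype.card F : ℝ)) * ((family c n).ncard : ℝ)) := by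
  classical
  have hB0 := D5.p_B0 F
  have hF5 := D5.p_F5 F hB0 (D5.p_MU F hB0)
  have hI5 := D5.I5F F
  have hJ0 := D5.p_J0 F
  have hJ1 := D5.p_J1 F hB0 (D5.p_B1 F hB0)
  have hup := D5.upper4 F (D5.Z2F F)
  have hlo := D5.lower4 F (D5.W2F F) (D5.W4F F)
  have hcard : ∀ (c : F) (n : ℕ), Imaginary c n →
      ((family c n).ncard : ℝ) = ((D5.SQF F n).card : ℝ) := by
    intro c n h
    rw [family_eq F c (ne_zero h), Set.ncard_coe_finset, Finset.card_image_of_injective _ (inj (ne_zero h))]
  have hsum : ∀ (c : F) (n : ℕ), Imaginary c n → ∑ᶠ f ∈ family c n, (fiveTorsion f : ℝ) =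
      ∑ m ∈ D5.SQF F n, (D5.cl5 (C c * m) : ℝ) := by
    intro c n h
    rw [family_eq F c (ne_zero h), finsum_mem_coe_finset,
      Finset.sum_image fun a _ b _ hab => inj (ne_zero h) hab]
    rfl
  have hfacts : ∀ (c : F) (n : ℕ), Imaginary c n → 1 ≤ n → ∀ f ∈ family c n, IsDedekindDomain (Ord f) ∧
      0 < classNumber f ∧ (1 < fiveTorsion f ↔ 5 ∣ classNumber f) ∧ ∃ r : ℕ, fiveTorsion f = 5 ^ r := by
    rintro c n h hn f ⟨hs, -, hd⟩
    exact facts F f hs (by rw [hd]; exact hn)
  have hU : ∀ (c : F) (n : ℕ), Imaginary c n → 81 ≤ n → ∑ m ∈ D5.SQF F n, (D5.cl5 (C c * m) : ℝ) ≤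
      (2 + 300000 / Real.sqrt (Fintype.card F : ℝ)) * ((D5.SQF F n).card : ℝ) := by
    intro c n h hn
    rcases cases h with ⟨g, rfl⟩ | ⟨hc, g, rfl⟩
    · have h1 := hup g (by omega)
      rw [D5.odd_c F hJ0 hJ1 c (ne_zero h) g]
      exact h1
    · obtain ⟨k, rfl⟩ : ∃ k, g = k + 1 := ⟨g - 1, by omega⟩
      have h1 := D5.upperI F c hc k (by omega)
      have e : k + 1 + (k + 1) = 2 * k + 2 := by ring
      rw [e]
      exact h1
  have hL : ∀ (c : F) (n : ℕ), Imaginary c n → 241 ≤ n →
      (2 - 300000 / Real.sqrt (Fintype.card F : ℝ)) * ((D5.SQF F n).card : ℝ) ≤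
        ∑ m ∈ D5.SQF F n, (D5.cl5 (C c * m) : ℝ) := by
    intro c n h hn
    rcases cases h with ⟨g, rfl⟩ | ⟨hc, g, rfl⟩
    · have h1 := hlo g (by omega)
      rw [D5.odd_c F hJ0 hJ1 c (ne_zero h) g]
      exact h1
    · obtain ⟨k, rfl⟩ : ∃ k, g = k + 1 := ⟨g - 1, by omega⟩
      have h1 := D5.lowerI F c hc k (by omega)
      have e : k + 1 + (k + 1) = 2 * k + 2 := by ring
      rw [e]
      exact h1
  refine ⟨hfacts, ?_, ?_, ?_, ?_⟩
  · intro c n h hn
    rw [hcard c n h]
    rcases cases h with ⟨g, rfl⟩ | ⟨-, g, rfl⟩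
    · exact hF5 g (by omega)
    · obtain ⟨k, rfl⟩ : ∃ k, g = k + 1 := ⟨g - 1, by omega⟩
      have e : k + 1 + (k + 1) = 2 * k + 2 := by ring
      rw [e]
      exact hI5 k
  · intro c n h hn
    rw [hsum c n h, hcard c n h]
    exact hU c n h hn
  · intro c n h hn
    rw [hsum c n h, hcard c n h]
    exact hL c n h hn
  · intro c n h hn
    have hf := hfacts c n h (by omega)
    have hu := hU c n h hn
    rw [← hsum c n h, ← hcard c n h] at hu
    rw [family_eq F c (ne_zero h) n] at hf hu ⊢
    rw [finsum_mem_coe_finset, Set.ncard_coe_finset] at hu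
    have h2 := markov _ _ (fun f hf' => (hf f hf').2.2) hu
    have e : {f ∈ (((D5.SQF F n).image (fun m => C c * m) : Finset F[X]) : Set F[X]) | 5 ∣ classNumber f} =
        ((((D5.SQF F n).image (fun m => C c * m)).filter (fun f => 5 ∣ classNumber f) : Finset F[X]) :
          Set F[X]) := by
      rw [Finset.coe_filter]
      rfl
    rw [e, Set.ncard_coe_finset, Set.ncard_coe_finset]
    exact h2

end Pool.Agent.Results.MP_16912e_nt.FiveTorsionAverageTwo
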