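import Pool.Agent.H461.Q5R.All

/-!
# The average of the 5-torsion of the class groups of real quadratic function fields in characteristic 5 is `6/5 + O(q^(-1/2))`

Let `F` be a finite field of characteristic `5` with `q` elements (`q = 5, 25, 125, …` is fixed).
The real quadratic extensions `K` of `F(t)` (the infinite place splits) are, up to scaling, the
fields `F(t)(√f)` with `f` monic squarefree of positive even degree `2 g + 2` (`g` is the genus of `K`); the
integral closure of `F[t]` in `K` is `F[t] + F[t] √f`, its unit group is infinite.  They are function field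
analogues of the real quadratic number fields, and `p = 5` is the characteristic (the case excluded in the theorems of
Ellenberg-Venkatesh-Westerland and of Landesman-Levy).

The theorem: when `f` runs over the `q^{2g+2} - q^{2g+1}` monic squarefree polynomials of degree `2 g + 2`, the limit
points (for `g → ∞`) of the average of `#Cl(f)[5]` differ from the value `1 + 1/5` conjectured by Cohen and Lenstra
(for `p = 5`) by at most `1200 q^(-1/2)`, and the lower density of the `f` whose class number is prime to `5`
is at least `19/20 - 300 q^(-1/2)`.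

## The proof

1. (algebra) The solutions `v` of `(f² v)'''' = - v⁵` correspond to the pairs (ideal `I`, generator `h` of `I⁵`) modulo
   fifth powers (`v = δh/h`, for the derivation `δ` with `δ t = √f`; helper506, helper731).  By the theory of Pell's
   equation over `F[t]` the units are the constants times the powers of one unit, so every class of order dividing `5`
   has exactly `5` solutions, and `#sol(f) = 5 #Cl(f)[5]` (`RU1`, `RU2`, `RU`, `RA7`, `RA9`).
2. (circle method) The leading coefficient `c` of a solution of degree `g` satisfies `c⁵ = c`; the other conditions are `g` quadratic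
   equations for `f`, so one expects `5 q^(2g+2)` pairs `(f, v)`, `v ≠ 0`: the average of `#sol(f)` is `1 + 5 = 6`.  The error term is
   controlled as in the imaginary case (project D5 of helper506 and `Pool.Agent.H461.Q5`).
3. The polynomials `f` which are not squarefree contribute `O(1/q)`.
-/

set_option autoImplicit false

open Polynomial

noncomputable section

namespace Pool.Agent.Results.MP_16912e_nt.RealFiveTorsionAverage

/-- The ring `F[t] + F[t] √f`: elements `a + b s` with `a, b ∈ F[t]` and `s² = f`. -/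
abbrev Ord {F : Type} [Field F] (f : F[X]) : Type := QuadraticAlgebra F[X] f 0

/-- The monic squarefree polynomials of degree `2 g + 2` over `F`. -/
def family (F : Type) [Field F] (g : ℕ) : Set F[X] :=
  {f | f.Monic ∧ Squarefree f ∧ f.natDegree = 2 * g + 2}

open scoped Classical in
/-- The class number of `Ord f` (for `f` in a `family`, when `Ord f` is a Dedekind domain with finite
class group; `0` if `Ord f` is not a domain). -/
def classNumber {F : Type} [Field F] (f : F[X]) : ℕ :=
  if _h : IsDomain (Ord f) then Nat.card (ClassGroup (Ord f)) else 0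

open scoped Classical in
/-- The number of the ideal classes `c` of `Ord f` with `c ^ 5 = 1` (with the same convention). -/
def fiveTorsion {F : Type} [Field F] (f : F[X]) : ℕ :=
  if _h : IsDomain (Ord f) then Nat.card {c : ClassGroup (Ord f) // c ^ 5 = 1} else 0

theorem family_eq (F : Type) [Field F] [Fintype F] [CharP F 5] (g : ℕ) :
    family F g = (D5.SQF F (2 * g + 2) : Set F[X]) := by
  have hB0 := D5.p_B0 F
  ext f
  simp only [family, Set.mem_setOf_eq, D5.SQF, Finset.coe_filter, hB0.2.1]
  tauto

theorem result (F : Type) [Field F] [Fintype F] [CharP F 5] :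
    -- the rings are Dedekind domains with finite class groups, `#Cl[5]` is a power of `5`, and it is
    -- not `1` iff `5` divides the class number
    (∀ g : ℕ, ∀ f ∈ family F g, IsDedekindDomain (Ord f) ∧ 0 < classNumber f ∧
      (1 < fiveTorsion f ↔ 5 ∣ classNumber f) ∧ ∃ r : ℕ, fiveTorsion f = 5 ^ r) ∧
    -- the size of the family
    (∀ g : ℕ, ((family F g).ncard : ℝ) =
      (Fintype.card F : ℝ) ^ (2 * g + 2) - (Fintype.card F : ℝ) ^ (2 * g + 1)) ∧
    -- the average of `#Cl[5]`
    (∀ ε : ℝ, 0 < ε → ∃ g₀ : ℕ, ∀ g ≥ g₀,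
      |(∑ᶠ f ∈ family F g, (fiveTorsion f : ℝ)) / ((family F g).ncard : ℝ) - 6 / 5| ≤
        1200 / Real.sqrt (Fintype.card F : ℝ) + ε) ∧
    -- the proportion of the class numbers prime to `5`
    (∀ ε : ℝ, 0 < ε → ∃ g₀ : ℕ, ∀ g ≥ g₀,
      19 / 20 - 300 / Real.sqrt (Fintype.card F : ℝ) - ε ≤
        ({f ∈ family F g | ¬ 5 ∣ classNumber f}.ncard : ℝ) / ((family F g).ncard : ℝ)) := by
  classical
  have hB0 := D5.p_B0 F
  obtain ⟨hRA, hRC2, hRF5, hRZ1, hRZ2⟩ := Q5R.main F
  have hgood : ∀ g, ∀ f ∈ family F g, Q5R.GoodR f := by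
    rintro g f ⟨hm, hs, hd⟩
    exact ⟨hm, hs, by rw [hd]; exact ⟨g + 1, by ring⟩, by omega⟩
  have hcard : ∀ g : ℕ, ((family F g).ncard : ℝ) = ((D5.SQF F (2 * g + 2)).card : ℝ) := by
    intro g
    rw [family_eq, Set.ncard_coe_finset]
  have hsum : ∀ g : ℕ, ∑ᶠ f ∈ family F g, (fiveTorsion f : ℝ) =
      ∑ f ∈ D5.SQF F (2 * g + 2), (D5.cl5 f : ℝ) := by
    intro g
    rw [family_eq, finsum_mem_coe_finset]
    rfl
  have hsize : ∀ g : ℕ, ((family F g).ncard : ℝ) =
      (Fintype.card F : ℝ) ^ (2 * g + 2) - (Fintype.card F : ℝ) ^ (2 * g + 1) := by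
    intro g
    rw [hcard]
    exact hRF5 g
  have hq : (1 : ℝ) < (Fintype.card F : ℝ) := by exact_mod_cast Fintype.one_lt_card (α := F)
  have hpos : ∀ g : ℕ, (0 : ℝ) < ((family F g).ncard : ℝ) := by
    intro g
    rw [hsize g]
    have := pow_lt_pow_right₀ hq (show 2 * g + 1 < 2 * g + 2 by omega)
    linarith
  have hsq : D5.qq F ^ (-(1 / 2) : ℝ) = 1 / Real.sqrt (Fintype.card F : ℝ) := by
    rw [Real.rpow_neg (by unfold D5.qq; positivity), ← Real.sqrt_eq_rpow, one_div]
    rfl
  refine ⟨?_, hsize, ?_, ?_⟩
  · intro g f hf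
    have h1 := hRC2 f (hgood g f hf)
    exact ⟨(hRA f (hgood g f hf)).1, h1.1, h1.2.1, h1.2.2⟩
  · intro ε hε
    obtain ⟨g₀, hg₀⟩ := hRZ1 ε hε
    refine ⟨g₀, fun g hg => ?_⟩
    have h1 := hg₀ g hg
    have h2 := hpos g
    rw [← hsum, ← hcard, hsq] at h1
    have e1 : (∑ᶠ f ∈ family F g, (fiveTorsion f : ℝ)) / ((family F g).ncard : ℝ) - 6 / 5 =
        (5 * ∑ᶠ f ∈ family F g, (fiveTorsion f : ℝ) - 6 * ((family F g).ncard : ℝ)) /
          (5 * ((family F g).ncard : ℝ)) := by
      field_simp
    have h3 : (0 : ℝ) < 5 * ((family F g).ncard : ℝ) := by positivity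
    rw [e1, abs_div, abs_of_pos h3, div_le_iff₀ h3]
    refine h1.trans ?_
    have h4 : 0 ≤ ε * ((family F g).ncard : ℝ) := by positivity
    have e2 : (1200 / Real.sqrt (Fintype.card F : ℝ) + ε) * (5 * ((family F g).ncard : ℝ)) =
        (6000 * (1 / Real.sqrt (Fintype.card F : ℝ)) + ε) * ((family F g).ncard : ℝ) +
          4 * (ε * ((family F g).ncard : ℝ)) := by ring
    rw [e2]
    linarith
  · intro ε hε
    obtain ⟨g₀, hg₀⟩ := hRZ2 ε hε
    refine ⟨g₀, fun g hg => ?_⟩
    have h1 := hg₀ g hg
    have h2 := hpos g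
    rw [hsq] at h1
    have e : {f ∈ family F g | ¬ 5 ∣ classNumber f} =
        (((D5.SQF F (2 * g + 2)).filter (fun f => ¬ 5 ∣ D5.cln f) : Finset F[X]) : Set F[X]) := by
      ext f
      simp only [Set.mem_setOf_eq, Finset.coe_filter]
      rw [family_eq]
      rfl
    rw [le_div_iff₀ h2, e, Set.ncard_coe_finset, hcard]
    have e3 : (19 / 20 - 300 / Real.sqrt (Fintype.card F : ℝ) - ε) =
        (19 / 20 - 300 * (1 / Real.sqrt (Fintype.card F : ℝ)) - ε) := by ring
    rw [e3]
    exact h1

end Pool.Agent.Results.MP_16912e_nt.RealFiveTorsionAverage
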